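import Mathlib
import Pool.Agent.Helper45.HK.Desc
import Pool.Agent.Helper45.HK.Avoid
import Pool.Agent.Helper47.W3.One

/-!
# A set of points which is stable under the involutions is dense if it is not of codimension two

Abstract form: `W` is a set of points of a variety in `(P^n)^(k+1)` over the field `k0`, the factor
`0` is `y`, the factors `j.succ` are `x j`.
-/

namespace Pool.Agent.Helper47.HK

open MvPolynomial Pool.Agent.Helper47.NI Pool.Agent.Helper47.W3

variable {k0 : Type} [Field k0] {k n : ℕ}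

/-- Polynomials in the affine coordinates of the other factors. -/
abbrev Rj (k0 : Type) [Field k0] {k : ℕ} (n : ℕ) (j : Fin k) : Type :=
  MvPolynomial ({l : Fin k // l ≠ j} × Fin n) k0

/-- The algebraic closure of its field of fractions. -/
abbrev Kj (k0 : Type) [Field k0] {k : ℕ} (n : ℕ) (j : Fin k) : Type :=
  AlgebraicClosure (FractionRing (Rj k0 n j))

/-- Polynomials in all affine coordinates as polynomials in those of the factor `j`. -/
noncomputable def ej (j : Fin k) : MvPolynomial (Fin k × Fin n) k0 →ₐ[k0]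
    MvPolynomial (Fin n) (MvPolynomial ({l : Fin k // l ≠ j} × Fin n) k0) :=
  aeval fun p => if h : p.1 = j then X p.2 else C (X (⟨p.1, h⟩, p.2))

/-- The converse. -/
noncomputable def fj (j : Fin k) : MvPolynomial (Fin n) (Rj k0 n j) →+*
    MvPolynomial (Fin k × Fin n) k0 :=
  eval₂Hom (rename (fun p => (p.1.1, p.2)) : Rj k0 n j →ₐ[k0] _).toRingHom fun i => X (j, i)

theorem ej_fj (j : Fin k) (F : MvPolynomial (Fin n) (Rj k0 n j)) : ej j (fj j F) = F := by
  have h1 : ((ej j).toRingHom.comp (fj j)) =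
      (RingHom.id (MvPolynomial (Fin n) (Rj k0 n j))) := by
    apply MvPolynomial.ringHom_ext
    · intro r
      have h2 : ((ej j).comp (rename (fun p => (p.1.1, p.2)) : Rj k0 n j →ₐ[k0] _)) =
          (Algebra.ofId (Rj k0 n j) (MvPolynomial (Fin n) (Rj k0 n j))).restrictScalars k0 := by
        apply MvPolynomial.algHom_ext
        intro p
        rw [AlgHom.comp_apply, rename_X, ej, aeval_X, dif_neg p.1.2]
        rfl
      have h3 := DFunLike.congr_fun h2 r
      have h4 : fj j (C r) = rename (fun p => (p.1.1, p.2)) r := eval₂Hom_C _ _ _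
      show ej j (fj j (C r)) = C r
      rw [h4]
      exact h3
    · intro i
      have h4 : fj (k0 := k0) j (X i) = X (j, i) := eval₂Hom_X' _ _ _
      show ej j (fj j (X i)) = X i
      rw [h4, ej, aeval_X, dif_pos rfl]
  exact DFunLike.congr_fun h1 F

/-- Evaluation at the other factors. -/
noncomputable def evb (j : Fin k) (P : Fin (k + 1) → Fin (n + 1) → k0) : Rj k0 n j →+* k0 :=
  eval fun p => P p.1.1.succ p.2.succ

theorem evb_update (j : Fin k) (P : Fin (k + 1) → Fin (n + 1) → k0) (v : Fin (n + 1) → k0) :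
    evb j (Function.update P j.succ v) = evb j P := by
  rw [evb, evb]
  congr 1
  funext p
  rw [Function.update_of_ne]
  intro h
  exact p.1.2 (Fin.succ_injective _ h)

theorem evb_update0 (j : Fin k) (P : Fin (k + 1) → Fin (n + 1) → k0) (v : Fin (n + 1) → k0) :
    evb j (Function.update P 0 v) = evb j P := by
  rw [evb, evb]
  congr 1

theorem eval_ej (j : Fin k) (P : Fin (k + 1) → Fin (n + 1) → k0)
    (F : MvPolynomial (Fin k × Fin n) k0) :
    eval₂ (evb j P) (fun i => P j.succ i.succ) (ej j F) =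
      eval (fun p => P p.1.succ p.2.succ) F := by
  have h1 : (eval₂Hom (evb j P) (fun i => P j.succ i.succ)).comp (ej j).toRingHom =
      eval (fun p : Fin k × Fin n => P p.1.succ p.2.succ) := by
    apply MvPolynomial.ringHom_ext
    · intro r
      have h2 : ej (n := n) j (C r) = C (C r) := algHom_C _ _
      show eval₂ (evb j P) (fun i => P j.succ i.succ) (ej j (C r)) = eval _ (C r)
      rw [h2, eval₂_C, evb, eval_C, eval_C]
    · rintro ⟨l, i⟩
      show eval₂ (evb j P) (fun i => P j.succ i.succ) (ej j (X (l, i))) = eval _ (X (l, i))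
      rw [ej, aeval_X, eval_X]
      by_cases h : l = j
      · subst h
        rw [dif_pos rfl, eval₂_X]
      · rw [dif_neg h, eval₂_C, evb, eval_X]
  exact DFunLike.congr_fun h1 F

theorem ej_ne {j : Fin k} {F : MvPolynomial (Fin k × Fin n) k0} [Infinite k0] (hF : F ≠ 0) :
    ej j F ≠ 0 := by
  intro h
  apply hF
  apply MvPolynomial.funext
  intro u
  have h1 := eval_ej (k0 := k0) j (Fin.cons 0 fun l => Fin.cons 0 fun i => u (l, i)) F
  rw [h, eval₂_zero] at h1
  simp only [Fin.cons_succ] at h1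
  rw [map_zero]
  exact h1.symm

/-- The abstract statement. -/
theorem ni_abs [CharZero k0] (hn : 1 ≤ n) (W : Set (Fin (k + 1) → Fin (n + 1) → k0))
    (hsc : ∀ P ∈ W, ∀ j : Fin k, ∀ a : k0, a ≠ 0 →
      Function.update P j.succ (fun i => a * P j.succ i) ∈ W)
    (cc : Fin k → ℕ) (hcc : ∀ j, 4 ≤ cc j)
    (G G' : ∀ j : Fin k, Fin (n + 1) × Fin (n + 1) → MvPolynomial (Fin (n + 1)) (Rj k0 n j))
    (hG : ∀ j p, (G j p).IsHomogeneous (cc j)) (hG' : ∀ j p, (G' j p).IsHomogeneous (cc j))
    (D : ∀ j, Dbl (Kj k0 n j) (n + 1) (cc j))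
    (hDG : ∀ j p, (D j).G p = MvPolynomial.map (algebraMap (Rj k0 n j) (Kj k0 n j)) (G j p))
    (hDG' : ∀ j p, (D j).G' p = MvPolynomial.map (algebraMap (Rj k0 n j) (Kj k0 n j)) (G' j p))
    (hd : ∀ j, (D j).Dense) (hd' : ∀ j, (D j).swap.Dense)
    (hs : ∀ P ∈ W, ∀ j : Fin k, (∀ l, l ≠ j → P l.succ 0 = 1) → ∃ x',
      Function.update P j.succ x' ∈ W ∧ ∃ l : k0, ∀ p,
        eval₂ (evb j P) (P 0) (G j p) = l * pr (P j.succ) x' p)
    (ht : ∀ P ∈ W, ∀ j : Fin k, (∀ l, l ≠ j → P l.succ 0 = 1) → ∃ y',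
      Function.update P 0 y' ∈ W ∧ ∃ l : k0, ∀ p,
        eval₂ (evb j P) (P j.succ) (G' j p) = l * pr (P 0) y' p)
    (nopair : ∀ F1 F2 : MvPolynomial (Fin k × Fin n) k0, IsRelPrime F1 F2 →
      ∃ P ∈ W, (∀ l : Fin k, P l.succ 0 = 1) ∧ ¬ (eval (fun p => P p.1.succ p.2.succ) F1 = 0 ∧
        eval (fun p => P p.1.succ p.2.succ) F2 = 0))
    (F : MvPolynomial (Fin k × Fin n) k0)
    (hF : ∀ P ∈ W, (∀ l : Fin k, P l.succ 0 = 1) → eval (fun p => P p.1.succ p.2.succ) F = 0) :
    F = 0 := by
  by_contra hF0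
  let A : Ideal (MvPolynomial (Fin k × Fin n) k0) :=
    { carrier := {F | ∀ P ∈ W, (∀ l : Fin k, P l.succ 0 = 1) →
        eval (fun p => P p.1.succ p.2.succ) F = 0}
      add_mem' := by
        intro a b ha hb P hP h1
        rw [map_add, ha P hP h1, hb P hP h1, add_zero]
      zero_mem' := by
        intro P hP h1
        exact map_zero _
      smul_mem' := by
        intro a b hb P hP h1
        rw [smul_eq_mul, map_mul, hb P hP h1, mul_zero] }
  have hmem : ∀ F, F ∈ A ↔ ∀ P ∈ W, (∀ l : Fin k, P l.succ 0 = 1) →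
      eval (fun p => P p.1.succ p.2.succ) F = 0 := fun F => Iff.rfl
  have hA : A ≠ ⊥ := by
    intro h
    have h1 : F ∈ A := hF
    rw [h, Ideal.mem_bot] at h1
    exact hF0 h1
  obtain ⟨w, hw, hwA⟩ := Pool.Agent.Helper45.HK.exists_irred A hA (by
    intro F1 h1 F2 h2 h12
    obtain ⟨P, hP, hPl, hne⟩ := nopair F1 F2 h12
    exact hne ⟨h1 P hP hPl, h2 P hP hPl⟩)
  obtain ⟨j, hj⟩ : ∃ j : Fin k, (ej j w).totalDegree ≠ 0 :=
    Pool.Agent.Helper45.HK.exists_totalDegree_ne hw
  have hinj : Function.Injective (algebraMap (Rj k0 n j) (Kj k0 n j)) := by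
    rw [IsScalarTower.algebraMap_eq (Rj k0 n j) (FractionRing (Rj k0 n j)) (Kj k0 n j)]
    exact (algebraMap (FractionRing (Rj k0 n j)) (Kj k0 n j)).injective.comp
      (IsFractionRing.injective _ _)
  have hchar : CharZero (Kj k0 n j) := by
    have h1 : CharZero (Rj k0 n j) := charZero_of_injective_algebraMap (C_injective _ _)
    exact charZero_of_injective_ringHom hinj
  -- the family
  let ι : Type := {P : Fin (k + 1) → Fin (n + 1) → k0 // P ∈ W ∧ ∀ l, l ≠ j → P l.succ 0 = 1}
  have hsx : ∀ i : ι, ∃ i' : ι, evb j i'.1 = evb j i.1 ∧ ∃ l : k0, ∀ p,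
      eval₂ (evb j i.1) (i.1 0) (G j p) = l * pr (i.1 j.succ) (i'.1 j.succ) p := by
    rintro ⟨P, hP, hb⟩
    obtain ⟨x', hx', l, hl⟩ := hs P hP j hb
    refine ⟨⟨Function.update P j.succ x', hx', fun l hl => ?_⟩, evb_update j P x', l, fun p => ?_⟩
    · rw [Function.update_of_ne]
      · exact hb l hl
      · intro h
        exact hl (Fin.succ_injective _ h)
    · rw [hl p]
      simp only [Function.update_self]
  have htx : ∀ i : ι, ∃ i' : ι, evb j i'.1 = evb j i.1 ∧ ∃ l : k0, ∀ p,
      eval₂ (evb j i.1) (i.1 j.succ) (G' j p) = l * pr (i.1 0) (i'.1 0) p := by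
    rintro ⟨P, hP, hb⟩
    obtain ⟨y', hy', l, hl⟩ := ht P hP j hb
    refine ⟨⟨Function.update P 0 y', hy', fun l hl => ?_⟩, evb_update0 j P y', l, fun p => ?_⟩
    · rw [Function.update_of_ne (Fin.succ_ne_zero l)]
      exact hb l hl
    · rw [hl p]
      simp only [Function.update_self]
  choose s hs1 hs2 using hsx
  choose t ht1 ht2 using htx
  have hr : (2 : Rj k0 n j) * C (2⁻¹ : k0) = 1 := by
    have h1 : (2 : Rj k0 n j) = C 2 := (map_ofNat C 2).symm
    rw [h1, ← C_mul, mul_inv_cancel₀ two_ne_zero, C_1]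
  refine Pool.Agent.Helper45.HK.desc (R := Rj k0 n j) (κ := Kj k0 n j) (Ω := k0) (ι := ι) hinj
    (C (2⁻¹ : k0)) hr (by omega) (hcc j) (G j) (G' j) (hG j) (hG' j) (D j) (hDG j) (hDG' j)
    (hd j) (hd' j) (fun i => evb j i.1) (fun i => i.1 j.succ) (fun i => i.1 0) s t hs1 ht1 hs2 ht2
    (w := hg (ej j w).totalDegree (ej j w)) (hg_isHomogeneous _ _) (Nat.pos_of_ne_zero hj) ?_
    (F0 := X 0 * hg (ej j F).totalDegree (ej j F)) (e0 := 1 + (ej j F).totalDegree) ?_
    ((isHomogeneous_X _ _).mul (hg_isHomogeneous _ _)) ?_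
  · intro F1 e hF1 hv
    refine hg_dvd hF1 ?_
    rw [← ej_fj j (dh F1)]
    refine map_dvd _ (hwA _ ?_)
    rw [hmem]
    intro P hP hPl
    rw [← eval_ej j, ej_fj, eval_dh]
    have h1 := hv ⟨P, hP, fun l _ => hPl l⟩
    have h2 : (Fin.cons 1 fun i => P j.succ i.succ : Fin (n + 1) → k0) = P j.succ := by
      funext i
      refine Fin.cases ?_ (fun i => ?_) i
      · rw [Fin.cons_zero, hPl j]
      · rw [Fin.cons_succ]
    rw [h2]
    exact h1
  · have h1 : ej j F ≠ 0 := ej_ne hF0
    refine mul_ne_zero (X_ne_zero 0) fun h => h1 ?_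
    have h2 := dh_hg (le_refl (ej j F).totalDegree)
    rw [h, map_zero] at h2
    exact h2.symm
  · rintro ⟨P, hP, hb⟩
    show eval₂ (evb j P) (P j.succ) _ = 0
    rw [eval₂_mul, eval₂_X]
    by_cases h0 : P j.succ 0 = 0
    · rw [h0, zero_mul]
    · have h1 := hsc P hP j (P j.succ 0)⁻¹ (inv_ne_zero h0)
      set P' := Function.update P j.succ (fun i => (P j.succ 0)⁻¹ * P j.succ i) with hP'
      have h2 : ∀ l : Fin k, P' l.succ 0 = 1 := by
        intro l
        by_cases hl : l = j
        · subst hl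
          rw [hP', Function.update_self, inv_mul_cancel₀ h0]
        · rw [hP', Function.update_of_ne]
          · exact hb l hl
          · intro h
            exact hl (Fin.succ_injective _ h)
      have h3 := hF P' h1 h2
      rw [← eval_ej j, hP', evb_update, ← hP'] at h3
      have h4 : eval₂ (evb j P) (P' j.succ) (hg (ej j F).totalDegree (ej j F)) = 0 := by
        rw [← h3]
        conv_rhs => rw [← dh_hg (le_refl (ej j F).totalDegree)]
        rw [eval_dh]
        congr 1
        funext i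
        refine Fin.cases ?_ (fun i => ?_) i
        · rw [Fin.cons_zero, h2 j]
        · rw [Fin.cons_succ]
      have h5 := scale (hg_isHomogeneous (ej j F).totalDegree (ej j F)) (evb j P)
        (P j.succ 0)⁻¹ (P j.succ)
      have h6 : (fun p => (P j.succ 0)⁻¹ * P j.succ p) = P' j.succ := by
        rw [hP', Function.update_self]
      rw [h6, h4] at h5
      have h7 := (mul_eq_zero.mp h5.symm).resolve_left (pow_ne_zero _ (inv_ne_zero h0))
      rw [h7, mul_zero]

end Pool.Agent.Helper47.HK
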