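import Mathlib
import Pool.Agent.Helper47.HK.NiAbs
import Pool.Agent.Helper23.HK.Gen
import Pool.Agent.Helper64.HK.Line
import Pool.Agent.Helper24.HK.Cfg

/-!
# Project HK: the rational points are dense if they are not of codimension two

For general coefficients over a number field: if two relatively prime polynomials in the affine
coordinates of `t` never vanish together at all rational points of the variety, then a polynomial
which vanishes at all of them is zero.
-/

set_option autoImplicit false

namespace Pool.Agent.Helper47.HK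

open MvPolynomial Pool.Agent.Helper47.NI Pool.Agent.Helper64.HK Pool.Agent.Helper23.HK
  Pool.Agent.Helper24.HK
open Pool.Agent.Helper28.HN (I aff)

variable {k m : ℕ} {a : Fin (k + 1) → Fin (m + 1)}

/-- The complete intersection is stable under scaling of one factor. -/
theorem onX_scale {S : Type*} [CommRing S] (c : Ix a → S) (j : Fin (k + 1))
    {P : Fin (k + 1) → I m → S} (h : OnX c P) (b : S) :
    OnX c (Function.update P j fun i => b * P j i) := by
  refine onX_upd c j (fun r => ?_) ?_
  · rw [rf_smul, rf_self, h, mul_zero]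
  · have h1 := Ef_quad c j P b 0 (P j) (P j)
    simp only [zero_mul, add_zero] at h1
    rw [h1, Function.update_eq_self, h]
    ring

theorem Xb_eval {L : Type} [Field L] (j : Fin k) (P : Fin (k + 1) → I m → L)
    (hb : ∀ l, l ≠ j → P l.succ 0 = 1) (l : Fin (k + 1)) (h0 : l ≠ 0) (h1 : l ≠ j.succ) :
    Xb j (fun b : Bx j m => P b.1.1.succ b.2.succ) l = P l := by
  obtain ⟨l, rfl⟩ := Fin.exists_succ_eq_of_ne_zero h0
  have hl : l ≠ j := fun h => h1 (by rw [h])
  rw [Xb_apply j _ l hl]
  funext i
  refine Fin.cases ?_ (fun i => ?_) i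
  · exact (hb l hl).symm
  · rfl

theorem map_evb {L : Type} [Field L] (c : Ix a → L) (j : Fin k) (P : Fin (k + 1) → I m → L)
    (hb : ∀ l, l ≠ j → P l.succ 0 = 1) (p : I m × I m) :
    MvPolynomial.map (evb (n := m + 1) j P) (Gb (fun e => C (c e)) j (Xb j X) p) =
      Gb c j P p ∧
    MvPolynomial.map (evb (n := m + 1) j P) (Gb' (fun e => C (c e)) j (Xb j X) p) =
      Gb' c j P p := by
  have h1 : (fun e => evb (n := m + 1) j P (C (c e))) = c := by
    funext e
    exact eval_C _
  have h2 : (fun l i => evb (n := m + 1) j P (Xb j (X : Bx j m → Rj L (m + 1) j) l i)) =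
      Xb j (fun b : Bx j m => P b.1.1.succ b.2.succ) := by
    rw [map_Xb]
    congr 1
    funext b
    exact eval_X _
  constructor
  · rw [map_Gb, h1, h2, Gb_congr c j (Xb_eval j P hb)]
  · rw [map_Gb', h1, h2, Gb'_congr c j (Xb_eval j P hb)]

/-- A polynomial in the affine coordinates of `t` which vanishes at all rational points is zero. -/
theorem ni1 (hm : 1 ≤ m) (a : Fin (k + 1) → Fin (m + 1)) :
    ∃ Δ : MvPolynomial (Ix a) ℚ, Δ ≠ 0 ∧
    ∀ (L : Type) [Field L] [NumberField L] (c : Ix a → L), aeval c Δ ≠ 0 → NoPair c →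
      ∀ F : MvPolynomial (Fin k × Fin (m + 1)) L,
        (∀ P : Fin (k + 1) → I m → L, OnX c P → P 0 ≠ 0 → (∀ j : Fin k, P j.succ 0 = 1) →
          eval (fun q => P q.1.succ q.2.succ) F = 0) → F = 0 := by
  obtain ⟨δ, hδ, hgen⟩ := dense_gen1 hm a
  refine ⟨δ, hδ, fun L _ _ c hc hnp F hF => ?_⟩
  have hinj : ∀ j : Fin k, Function.Injective
      (algebraMap (Rj L (m + 1) j) (Kj L (m + 1) j)) := by
    intro j
    rw [IsScalarTower.algebraMap_eq (Rj L (m + 1) j) (FractionRing (Rj L (m + 1) j))
      (Kj L (m + 1) j)]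
    exact (algebraMap (FractionRing (Rj L (m + 1) j)) (Kj L (m + 1) j)).injective.comp
      (IsFractionRing.injective _ _)
  have hchar : ∀ j : Fin k, CharZero (Kj L (m + 1) j) := by
    intro j
    have h1 : CharZero (Rj L (m + 1) j) :=
      charZero_of_injective_algebraMap (C_injective _ _)
    exact charZero_of_injective_ringHom (hinj j)
  have hdense : ∀ j : Fin k,
      (Db (fun e => algebraMap L (Kj L (m + 1) j) (c e)) j
        (Xb j fun b => algebraMap (Rj L (m + 1) j) (Kj L (m + 1) j) (X b))).Dense ∧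
      (Db (fun e => algebraMap L (Kj L (m + 1) j) (c e)) j
        (Xb j fun b => algebraMap (Rj L (m + 1) j) (Kj L (m + 1) j) (X b))).swap.Dense := by
    intro j
    refine hgen L (Kj L (m + 1) j) c hc j
      (fun b => algebraMap (Rj L (m + 1) j) (Kj L (m + 1) j) (X b)) ?_ _
      fun l hl => Xb_apply j _ l hl
    have e : (aeval (fun b => algebraMap (Rj L (m + 1) j) (Kj L (m + 1) j) (X b)) :
        MvPolynomial (Bx j m) L →ₐ[L] Kj L (m + 1) j) =
        IsScalarTower.toAlgHom L (Rj L (m + 1) j) (Kj L (m + 1) j) := by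
      apply MvPolynomial.algHom_ext
      intro i
      rw [aeval_X]
      rfl
    rw [e]
    exact hinj j
  have hC : ∀ (j : Fin k) (e : Ix a), algebraMap (Rj L (m + 1) j) (Kj L (m + 1) j) (C (c e)) =
      algebraMap L (Kj L (m + 1) j) (c e) := by
    intro j e
    exact (IsScalarTower.algebraMap_apply L (Rj L (m + 1) j) (Kj L (m + 1) j) (c e)).symm
  refine ni_abs (k0 := L) (n := m + 1) (by omega) {P | OnX c P ∧ ∀ l, P l ≠ 0} ?_
    (fun j => eb a j) ?_ (fun j p => Gb (fun e => C (c e)) j (Xb j X) p)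
    (fun j p => Gb' (fun e => C (c e)) j (Xb j X) p)
    (fun j p => isHomogeneous_Gb _ j _ p) (fun j p => isHomogeneous_Gb' _ j _ p)
    (fun j => Db (fun e => algebraMap L (Kj L (m + 1) j) (c e)) j
        (Xb j fun b => algebraMap (Rj L (m + 1) j) (Kj L (m + 1) j) (X b)))
    ?_ ?_ (fun j => (hdense j).1) (fun j => (hdense j).2) ?_ ?_ ?_ F ?_
  · rintro P ⟨h1, h2⟩ j b hb
    refine ⟨onX_scale c j.succ h1 b, fun l => ?_⟩
    by_cases hl : l = j.succ
    · subst hl
      rw [Function.update_self]
      intro h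
      apply h2 j.succ
      funext i
      have := congrFun h i
      exact (mul_eq_zero.mp this).resolve_left hb
    · rw [Function.update_of_ne hl]
      exact h2 l
  · intro j
    show 4 ≤ eb a j
    unfold eb
    split_ifs <;> omega
  · intro j p
    rw [Db_G, map_Gb]
    simp only [hC]
    rw [map_Xb]
  · intro j p
    rw [Db_G', map_Gb']
    simp only [hC]
    rw [map_Xb]
  · rintro P ⟨h1, h2⟩ j hb
    obtain ⟨x', hx', hon, t, ht⟩ := second_x c j P h1 (h2 _)
    refine ⟨x', ⟨hon, fun l => ?_⟩, t, fun p => ?_⟩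
    · by_cases hl : l = j.succ
      · subst hl
        rw [Function.update_self]
        exact hx'
      · rw [Function.update_of_ne hl]
        exact h2 l
    · rw [← ht p, ← (map_evb c j P hb p).1, eval_map]
  · rintro P ⟨h1, h2⟩ j hb
    obtain ⟨y', hy', hon, t, ht⟩ := second_y c j P h1 (h2 _)
    refine ⟨y', ⟨hon, fun l => ?_⟩, t, fun p => ?_⟩
    · by_cases hl : l = 0
      · subst hl
        rw [Function.update_self]
        exact hy'
      · rw [Function.update_of_ne hl]
        exact h2 l
    · rw [← ht p, ← (map_evb c j P hb p).2, eval_map]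
  · intro F1 F2 h12
    obtain ⟨P, hP, h1, hne⟩ := hnp F1 F2 h12
    refine ⟨P, ⟨hP, fun l h => ?_⟩, fun l => h1 l.succ, fun h => ?_⟩
    · have := congrFun h 0
      rw [h1 l] at this
      exact one_ne_zero this
    · rcases hne with h3 | h3
      · exact h3 h.1
      · exact h3 h.2
  · rintro P ⟨h1, h2⟩ h3
    exact hF P h1 (h2 0) h3

/-- The same for `2 ≤ m`. -/
theorem ni (hm : 2 ≤ m) (a : Fin (k + 1) → Fin (m + 1)) :
    ∃ Δ : MvPolynomial (Ix a) ℚ, Δ ≠ 0 ∧
    ∀ (L : Type) [Field L] [NumberField L] (c : Ix a → L), aeval c Δ ≠ 0 → NoPair c →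
      ∀ F : MvPolynomial (Fin k × Fin (m + 1)) L,
        (∀ P : Fin (k + 1) → I m → L, OnX c P → P 0 ≠ 0 → (∀ j : Fin k, P j.succ 0 = 1) →
          eval (fun q => P q.1.succ q.2.succ) F = 0) → F = 0 :=
  ni1 (by omega) a

end Pool.Agent.Helper47.HK
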