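import Mathlib
import Pool.Agent.Helper64.HK.Line
import Pool.Agent.Helper77.HK.Chart

/-!
# Project HK: the chart and the norm of a function on it

`pc u v`: the point with the affine coordinates `u` of `t` and `v` of the factor `0`.
`chartIdeal c` is the ideal of the complete intersection in the chart where all first coordinates
are `1`.  On it every function is `r0 + r1 * v 0` up to powers of `Ah` and of `det Mx`, and
`Ah r0^2 - 2 Bh r0 r1 + Ch r1^2` is its norm.
-/

set_option autoImplicit false

namespace Pool.Agent.Helper47.HK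

open MvPolynomial Pool.Agent.Helper64.HK Pool.Agent.Helper77.HK
open Pool.Agent.Helper28.HN (I aff)

universe w v

variable {k m : ℕ} {a : Fin (k + 1) → Fin (m + 1)}

/-- The point of the chart with the affine coordinates `u` of `t` and `v` of the factor `0`. -/
def pc {S : Type*} [CommRing S] (u : Fin k × Fin (m + 1) → S) (v : Fin (m + 1) → S) :
    Fin (k + 1) → I m → S :=
  Fin.cons (aff v) fun j => aff fun i => u (j, i)

section point

variable {S T : Type*} [CommRing S] [CommRing T]

theorem pc_eq (u : Fin k × Fin (m + 1) → S) (v : Fin (m + 1) → S) :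
    pc u v = Function.update (ct u) 0 (aff v) := by
  funext l
  refine Fin.cases ?_ (fun l => ?_) l
  · rw [Function.update_self]
    rfl
  · rw [Function.update_of_ne (Fin.succ_ne_zero l)]
    rfl

theorem map_pc (f : S →+* T) (u : Fin k × Fin (m + 1) → S) (v : Fin (m + 1) → S) :
    (fun l i => f (pc u v l i)) = pc (fun p => f (u p)) fun i => f (v i) := by
  funext l
  refine Fin.cases ?_ (fun l => ?_) l
  · exact map_aff f v
  · exact map_aff f _

theorem pc_zero (u : Fin k × Fin (m + 1) → S) (v : Fin (m + 1) → S) : pc u v 0 = aff v := rfl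

theorem pc_zero_zero (u : Fin k × Fin (m + 1) → S) (v : Fin (m + 1) → S) : pc u v 0 0 = 1 := rfl

theorem pc_zero_one (u : Fin k × Fin (m + 1) → S) (v : Fin (m + 1) → S) : pc u v 0 1 = v 0 := rfl

theorem pc_zero_succ (u : Fin k × Fin (m + 1) → S) (v : Fin (m + 1) → S) (i : Fin (m + 1)) :
    pc u v 0 i.succ = v i := rfl

/-- The equations of the point of the line. -/
theorem det_pc (c : Ix a → S) (u : Fin k × Fin (m + 1) → S) (v : Fin (m + 1) → S)
    (h : OnX c (pc u v)) (i : Fin (m + 1)) :
    (Mx c (ct u)).det * v i = Y0 c (ct u) i.succ + v 0 * Y1 c (ct u) i.succ := by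
  have h1 := det_y c (pc u v) (pc u v 0) ((onX_iff c 0).mp h).1 i.succ
  rw [pc_zero_zero, pc_zero_one, pc_zero_succ, pc_eq, Mx_upd, Y0_upd, Y1_upd, one_mul] at h1
  exact h1

/-- The quadratic equation. -/
theorem quad_pc (c : Ix a → S) (u : Fin k × Fin (m + 1) → S) (v : Fin (m + 1) → S)
    (h : OnX c (pc u v)) :
    Ah c (ct u) * v 0 ^ 2 + 2 * Bh c (ct u) * v 0 + Ch c (ct u) = 0 := by
  have h0 := (onX_iff c 0).mp h
  have h1 := sq_mul_eq c (pc u v) (v 0) (pc u v 0) h0.1 (by
    rw [pc_zero_zero, pc_zero_one, mul_one])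
  rw [Pf_self, Function.update_eq_self, h0.2, mul_zero, mul_zero, pc_zero_zero, one_pow,
    one_mul, pc_eq, Fh_upd, Pool.Agent.Helper64.HK.Fh_eq] at h1
  exact h1.symm

end point

section chart

variable {K : Type*} [CommRing K]

/-- The ideal of the complete intersection in the chart where all first coordinates are `1`. -/
noncomputable def chartIdeal (c : Ix a → K) :
    Ideal (MvPolynomial ((Fin k × Fin (m + 1)) ⊕ Fin (m + 1)) K) :=
  Ideal.span (Set.range fun i : Fin (m + 1) => Ef (fun e => C (c e)) i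
    (pc (fun p => (X (.inl p) : MvPolynomial ((Fin k × Fin (m + 1)) ⊕ Fin (m + 1)) K))
      fun i => X (.inr i)))

variable {S : Type*} [CommRing S] [Algebra K S]

theorem chartIdeal_le (c : Ix a → K)
    (f : MvPolynomial ((Fin k × Fin (m + 1)) ⊕ Fin (m + 1)) K →ₐ[K] S) :
    chartIdeal c ≤ RingHom.ker f ↔
      OnX (fun e => algebraMap K S (c e)) (pc (fun p => f (X (.inl p))) fun i => f (X (.inr i))) := by
  have hc : (fun e => f.toRingHom (C (c e))) = fun e => algebraMap K S (c e) := by
    funext e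
    exact algHom_C f (c e)
  have hl : ∀ i, f (Ef (fun e => C (c e)) i
      (pc (fun p => (X (.inl p) : MvPolynomial ((Fin k × Fin (m + 1)) ⊕ Fin (m + 1)) K))
        fun i => X (.inr i))) = Ef (fun e => algebraMap K S (c e)) i
          (pc (fun p => f (X (.inl p))) fun i => f (X (.inr i))) := by
    intro i
    have := map_Ef (fun e => C (c e)) f.toRingHom i
      (pc (fun p => (X (.inl p) : MvPolynomial ((Fin k × Fin (m + 1)) ⊕ Fin (m + 1)) K))
        fun i => X (.inr i))
    rw [hc, map_pc] at this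
    exact this
  rw [chartIdeal, Ideal.span_le, Set.range_subset_iff]
  simp only [SetLike.mem_coe, RingHom.mem_ker]
  constructor
  · intro h i
    rw [← hl]
    exact h i
  · intro h i
    rw [hl]
    exact h i

theorem chartIdeal_le' (c : Ix a → K) (u : Fin k × Fin (m + 1) → S) (v : Fin (m + 1) → S) :
    chartIdeal c ≤ RingHom.ker (aeval (Sum.elim u v) :
      MvPolynomial ((Fin k × Fin (m + 1)) ⊕ Fin (m + 1)) K →ₐ[K] S) ↔
      OnX (fun e => algebraMap K S (c e)) (pc u v) := by
  rw [chartIdeal_le]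
  simp only [aeval_X, Sum.elim_inl, Sum.elim_inr]

/-- The points of the line over `t` as polynomials. -/
noncomputable def Y0p (c : Ix a → K) (i : I m) : MvPolynomial (Fin k × Fin (m + 1)) K :=
  Y0 (fun e => C (c e)) (ct X) i

/-- The points of the line over `t` as polynomials. -/
noncomputable def Y1p (c : Ix a → K) (i : I m) : MvPolynomial (Fin k × Fin (m + 1)) K :=
  Y1 (fun e => C (c e)) (ct X) i

theorem aeval_Y0p (c : Ix a → K) (u : Fin k × Fin (m + 1) → S) (i : I m) :
    aeval u (Y0p c i) = Y0 (fun e => algebraMap K S (c e)) (ct u) i := by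
  have := map_Y0 (fun e => C (c e))
    (eval₂Hom (algebraMap K S) u) (ct X : Fin (k + 1) → I m → MvPolynomial (Fin k × Fin (m + 1)) K)
  rw [e2_c, e2_ct] at this
  exact congrFun this i

theorem aeval_Y1p (c : Ix a → K) (u : Fin k × Fin (m + 1) → S) (i : I m) :
    aeval u (Y1p c i) = Y1 (fun e => algebraMap K S (c e)) (ct u) i := by
  have := map_Y1 (fun e => C (c e))
    (eval₂Hom (algebraMap K S) u) (ct X : Fin (k + 1) → I m → MvPolynomial (Fin k × Fin (m + 1)) K)
  rw [e2_c, e2_ct] at this
  exact congrFun this i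

end chart

section norm

variable {K : Type w} [CommRing K]

/-- Every function on the chart is `r0 + r1 * v 0`, up to a power of `Ah * det Mx`. -/
theorem exists_lin (c : Ix a → K) (F : MvPolynomial ((Fin k × Fin (m + 1)) ⊕ Fin (m + 1)) K) :
    ∃ (n : ℕ) (r0 r1 : MvPolynomial (Fin k × Fin (m + 1)) K),
      ∀ (S : Type v) [CommRing S] [Algebra K S] (u : Fin k × Fin (m + 1) → S)
        (v : Fin (m + 1) → S), OnX (fun e => algebraMap K S (c e)) (pc u v) →
      (aeval u (Ap c) * aeval u (Dp c)) ^ n * aeval (Sum.elim u v) F =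
        aeval u r0 + aeval u r1 * v 0 := by
  induction F using MvPolynomial.induction_on with
  | C b =>
    refine ⟨0, C b, 0, fun S _ _ u v _ => ?_⟩
    rw [pow_zero, one_mul, map_zero, zero_mul, add_zero, algHom_C, algHom_C]
  | add p q hp hq =>
    obtain ⟨n, r0, r1, h⟩ := hp
    obtain ⟨n', r0', r1', h'⟩ := hq
    refine ⟨n + n', (Ap c * Dp c) ^ n' * r0 + (Ap c * Dp c) ^ n * r0',
      (Ap c * Dp c) ^ n' * r1 + (Ap c * Dp c) ^ n * r1', fun S _ _ u v huv => ?_⟩
    have e := h S u v huv
    have e' := h' S u v huv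
    simp only [map_add, map_mul, map_pow]
    rw [pow_add]
    linear_combination (aeval u (Ap c) * aeval u (Dp c)) ^ n' * e +
      (aeval u (Ap c) * aeval u (Dp c)) ^ n * e'
  | mul_X p i hp =>
    obtain ⟨n, r0, r1, h⟩ := hp
    rcases i with i | i
    · refine ⟨n, r0 * X i, r1 * X i, fun S _ _ u v huv => ?_⟩
      have e := h S u v huv
      simp only [map_mul, aeval_X, Sum.elim_inl]
      linear_combination u i * e
    · refine ⟨n + 1, Ap c * (r0 * Y0p c i.succ) - Cp c * (r1 * Y1p c i.succ),
        Ap c * (r0 * Y1p c i.succ + r1 * Y0p c i.succ) - 2 * Bp c * (r1 * Y1p c i.succ),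
        fun S _ _ u v huv => ?_⟩
      have e := h S u v huv
      have e1 := det_pc (fun e => algebraMap K S (c e)) u v huv i
      have e2 := quad_pc (fun e => algebraMap K S (c e)) u v huv
      rw [← aeval_Dp, ← aeval_Y0p, ← aeval_Y1p] at e1
      rw [← aeval_Ap, ← aeval_Bp, ← aeval_Cp] at e2
      simp only [map_mul, map_sub, map_add, map_ofNat, aeval_X, Sum.elim_inr]
      rw [pow_succ]
      linear_combination (aeval u (Ap c) * (aeval u (Dp c) * v i)) * e +
        (aeval u (Ap c) * (aeval u r0 + aeval u r1 * v 0)) * e1 +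
        (aeval u r1 * aeval u (Y1p c i.succ)) * e2

/-- The norm of `F` over `t`. -/
theorem exists_normpoly (c : Ix a → K) (hns : NS c)
    (F : MvPolynomial ((Fin k × Fin (m + 1)) ⊕ Fin (m + 1)) K) :
    ∃ N : MvPolynomial (Fin k × Fin (m + 1)) K,
      (∀ (S : Type v) [CommRing S] [Algebra K S] (u : Fin k × Fin (m + 1) → S)
        (v : Fin (m + 1) → S), OnX (fun e => algebraMap K S (c e)) (pc u v) →
        aeval (Sum.elim u v) F = 0 → aeval u N = 0) ∧
      (N = 0 → ∃ n : ℕ, ∀ (S : Type v) [CommRing S] [Algebra K S]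
        (u : Fin k × Fin (m + 1) → S) (v : Fin (m + 1) → S),
        OnX (fun e => algebraMap K S (c e)) (pc u v) →
        (aeval u (Ap c) * aeval u (Dp c)) ^ n * aeval (Sum.elim u v) F = 0) := by
  obtain ⟨n, r0, r1, h⟩ := exists_lin.{w, v} c F
  refine ⟨Ap c * r0 ^ 2 - 2 * Bp c * r0 * r1 + Cp c * r1 ^ 2, ?_, ?_⟩
  · intro S _ _ u v huv hF
    have e := h S u v huv
    rw [hF, mul_zero] at e
    have e2 := quad_pc (fun e => algebraMap K S (c e)) u v huv
    rw [← aeval_Ap, ← aeval_Bp, ← aeval_Cp] at e2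
    simp only [map_mul, map_sub, map_add, map_ofNat, map_pow]
    linear_combination ((-(aeval u (Ap c))) * (aeval u r0 - aeval u r1 * v 0) +
      2 * aeval u (Bp c) * aeval u r1) * e + (aeval u r1) ^ 2 * e2
  · intro hN
    obtain ⟨h0, h1⟩ := hns r0 r1 hN
    refine ⟨n, fun S _ _ u v huv => ?_⟩
    rw [h S u v huv, h0, h1]
    simp

end norm

end Pool.Agent.Helper47.HK
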